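import Pool.Agent.Helper38.ELP.Spec
import Pool.Agent.Helper38.ELP.Local

namespace Pool.Agent.Helper9.ELP

open Pool.Agent.Helper38.ELP

theorem rd_cell (m : Ty → ℕ) (N I J a b : ℕ) (ha : a < 10) (hb : b < 10) :
    rd m N (10 * I + a) (10 * J + b) = (m (ty N I J)).testBit (10 * b + a) := by
  unfold rd
  have h1 : (10 * I + a) / 10 = I := by omega
  have h2 : (10 * J + b) / 10 = J := by omega
  have h3 : (10 * I + a) % 10 = a := by omega
  have h4 : (10 * J + b) % 10 = b := by omega
  rw [h1, h2, h3, h4]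

/-- A closed square is impossible. -/
theorem no_square {N : ℕ} {uh uv : ℕ → ℕ → Bool} (G : Good N uh uv) (x y : ℕ)
    (p1 : pres N x y = true) (p2 : pres N (x + 1) y = true) (p3 : pres N x (y + 1) = true)
    (p4 : pres N (x + 1) (y + 1) = true)
    (h1 : uh x y = true) (h2 : uh x (y + 1) = true) (h3 : uv x y = true)
    (h4 : uv (x + 1) y = true) {z : ℕ × ℕ} (hz : pres N z.1 z.2 = true)
    (hz' : z ∉ ({(x, y), (x + 1, y), (x, y + 1), (x + 1, y + 1)} : Finset (ℕ × ℕ))) : False := by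
  have d1 := G.deg x y p1
  have d2 := G.deg (x + 1) y p2
  have d3 := G.deg x (y + 1) p3
  have d4 := G.deg (x + 1) (y + 1) p4
  unfold degU at d1 d2 d3 d4
  simp only [h1, h2, h3, h4, Bool.toNat_true, Nat.add_sub_cancel, Nat.add_eq_zero_iff,
    Nat.one_ne_zero, and_false, if_false] at d1 d2 d3 d4
  obtain ⟨p, hp, q, hq, hadj⟩ := G.nocyc {(x, y), (x + 1, y), (x, y + 1), (x + 1, y + 1)}
    ⟨(x, y), by simp⟩ (by
      rw [Finset.ssubset_iff_of_subset]
      · exact ⟨z, mem_Vset.2 hz, hz'⟩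
      · intro w hw
        simp only [Finset.mem_insert, Finset.mem_singleton] at hw
        rcases hw with rfl | rfl | rfl | rfl
        · exact mem_Vset.2 p1
        · exact mem_Vset.2 p2
        · exact mem_Vset.2 p3
        · exact mem_Vset.2 p4)
  simp only [Finset.mem_insert, Finset.mem_singleton, not_or] at hp hq
  obtain ⟨q1, q2⟩ := q
  simp only [Prod.mk.injEq, not_and_or] at hq
  obtain ⟨e1, e2, e3, e4⟩ := hq
  unfold adjU at hadj
  rcases hp with rfl | rfl | rfl | rfl
  · simp only [Prod.mk.injEq] at hadj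
    rcases hadj with ⟨⟨rfl, rfl⟩, h⟩ | ⟨⟨hx, hy⟩, h⟩ | ⟨⟨rfl, rfl⟩, h⟩ | ⟨⟨hx, hy⟩, h⟩
    · simp at e2
    · subst hy; subst hx
      simp only [Nat.add_sub_cancel, h, Bool.toNat_true, Nat.add_eq_zero_iff,
        Nat.one_ne_zero, and_false, if_false] at d1
      omega
    · simp at e3
    · subst hy; subst hx
      simp only [Nat.add_sub_cancel, h, Bool.toNat_true, Nat.add_eq_zero_iff,
        Nat.one_ne_zero, and_false, if_false] at d1
      omega
  · simp only [Prod.mk.injEq] at hadj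
    rcases hadj with ⟨⟨rfl, rfl⟩, h⟩ | ⟨⟨hx, hy⟩, h⟩ | ⟨⟨rfl, rfl⟩, h⟩ | ⟨⟨hx, hy⟩, h⟩
    · simp only [h, Bool.toNat_true] at d2
      omega
    · have : q1 = x := by omega
      subst this; subst hy
      simp at e1
    · simp at e4
    · subst hy
      subst hx
      simp only [Nat.add_sub_cancel, h, Bool.toNat_true, Nat.add_eq_zero_iff,
        Nat.one_ne_zero, and_false, if_false] at d2
      omega
  · simp only [Prod.mk.injEq] at hadj
    rcases hadj with ⟨⟨rfl, rfl⟩, h⟩ | ⟨⟨hx, hy⟩, h⟩ | ⟨⟨rfl, rfl⟩, h⟩ | ⟨⟨hx, hy⟩, h⟩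
    · simp at e4
    · subst hy; subst hx
      simp only [Nat.add_sub_cancel, h, Bool.toNat_true, Nat.add_eq_zero_iff,
        Nat.one_ne_zero, and_false, if_false] at d3
      omega
    · simp only [h, Bool.toNat_true] at d3
      omega
    · have : q2 = y := by omega
      subst this; subst hx
      simp at e1
  · simp only [Prod.mk.injEq] at hadj
    rcases hadj with ⟨⟨rfl, rfl⟩, h⟩ | ⟨⟨hx, hy⟩, h⟩ | ⟨⟨rfl, rfl⟩, h⟩ | ⟨⟨hx, hy⟩, h⟩
    · simp only [h, Bool.toNat_true] at d4
      omega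
    · have : q1 = x := by omega
      subst this; subst hy
      simp at e3
    · simp only [h, Bool.toNat_true] at d4
      omega
    · have : q2 = y := by omega
      subst this; subst hx
      simp at e2

theorem tblT : ∀ t : Ty, hasT t = true → ∀ w : Fin 10, 6 ≤ w.val →
    (presM t).testBit (10 * w + 1) = true ∧ (presM t).testBit (10 * w + 2) = true ∧
    (foH t).testBit (10 * w + 1) = true ∧ (alH t).testBit (10 * w) = false ∧
    (alH t).testBit (10 * w + 2) = false := by decide +kernel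

theorem tblR : ∀ t : Ty, hasR t = true → ∀ w : Fin 10, 6 ≤ w.val →
    (presM t).testBit (10 + w) = true ∧ (presM t).testBit (20 + w) = true ∧
    (foV t).testBit (10 + w) = true ∧ (alV t).testBit w = false ∧
    (alV t).testBit (20 + w) = false := by decide +kernel

theorem top_step {N : ℕ} {uh uv : ℕ → ℕ → Bool} (G : Good N uh uv) {I J : ℕ}
    (hT : hasT (ty N I J) = true) (w : ℕ) (hw : 6 ≤ w) (hw' : w < 10) :
    pres N (10 * I + 1) (10 * J + w) = true ∧ pres N (10 * I + 2) (10 * J + w) = true ∧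
    uh (10 * I + 1) (10 * J + w) = true ∧
    uv (10 * I + 1) (10 * J + w) = !uv (10 * I + 1) (10 * J + (w - 1)) ∧
    uv (10 * I + 2) (10 * J + w) = !uv (10 * I + 2) (10 * J + (w - 1)) := by
  obtain ⟨t1, t2, t3, t4, t5⟩ := tblT (ty N I J) hT ⟨w, hw'⟩ hw
  simp only at t1 t2 t3 t4 t5
  have q1 : pres N (10 * I + 1) (10 * J + w) = true := by
    unfold pres; rw [rd_cell _ _ _ _ _ _ (by omega) hw']; exact t1
  have q2 : pres N (10 * I + 2) (10 * J + w) = true := by
    unfold pres; rw [rd_cell _ _ _ _ _ _ (by omega) hw']; exact t2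
  have q3 : uh (10 * I + 1) (10 * J + w) = true := by
    apply G.frcH
    rw [rd_cell _ _ _ _ _ _ (by omega) hw']; exact t3
  have q4 : uh (10 * I) (10 * J + w) = false := by
    by_contra hc
    rw [Bool.not_eq_false] at hc
    have := G.alwH _ _ hc
    have e : 10 * I = 10 * I + 0 := rfl
    rw [e, rd_cell _ _ _ _ _ _ (by omega) hw', Nat.add_zero, t4] at this
    exact Bool.noConfusion this
  have q5 : uh (10 * I + 2) (10 * J + w) = false := by
    by_contra hc
    rw [Bool.not_eq_false] at hc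
    have := G.alwH _ _ hc
    rw [rd_cell _ _ _ _ _ _ (by omega) hw', t5] at this
    exact Bool.noConfusion this
  have d1 := G.deg _ _ q1
  have d2 := G.deg _ _ q2
  unfold degU at d1 d2
  have e1 : 10 * I + 1 - 1 = 10 * I := by omega
  have e2 : 10 * I + 2 - 1 = 10 * I + 1 := by omega
  have e3 : 10 * J + w - 1 = 10 * J + (w - 1) := by omega
  rw [if_neg (by omega), if_neg (by omega), e1, e3, q3, q4] at d1
  rw [if_neg (by omega), if_neg (by omega), e2, e3, q3, q5] at d2
  refine ⟨q1, q2, q3, ?_, ?_⟩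
  · cases h : uv (10 * I + 1) (10 * J + w) <;>
      cases h' : uv (10 * I + 1) (10 * J + (w - 1)) <;> simp [h, h'] at d1 ⊢
  · cases h : uv (10 * I + 2) (10 * J + w) <;>
      cases h' : uv (10 * I + 2) (10 * J + (w - 1)) <;> simp [h, h'] at d2 ⊢

theorem right_step {N : ℕ} {uh uv : ℕ → ℕ → Bool} (G : Good N uh uv) {I J : ℕ}
    (hR : hasR (ty N I J) = true) (w : ℕ) (hw : 6 ≤ w) (hw' : w < 10) :
    pres N (10 * I + w) (10 * J + 1) = true ∧ pres N (10 * I + w) (10 * J + 2) = true ∧
    uv (10 * I + w) (10 * J + 1) = true ∧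
    uh (10 * I + w) (10 * J + 1) = !uh (10 * I + (w - 1)) (10 * J + 1) ∧
    uh (10 * I + w) (10 * J + 2) = !uh (10 * I + (w - 1)) (10 * J + 2) := by
  obtain ⟨t1, t2, t3, t4, t5⟩ := tblR (ty N I J) hR ⟨w, hw'⟩ hw
  simp only at t1 t2 t3 t4 t5
  have q1 : pres N (10 * I + w) (10 * J + 1) = true := by
    unfold pres; rw [rd_cell _ _ _ _ _ _ hw' (by omega)]; exact t1
  have q2 : pres N (10 * I + w) (10 * J + 2) = true := by
    unfold pres; rw [rd_cell _ _ _ _ _ _ hw' (by omega)]; exact t2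
  have q3 : uv (10 * I + w) (10 * J + 1) = true := by
    apply G.frcV
    rw [rd_cell _ _ _ _ _ _ hw' (by omega)]; exact t3
  have q4 : uv (10 * I + w) (10 * J) = false := by
    by_contra hc
    rw [Bool.not_eq_false] at hc
    have := G.alwV _ _ hc
    have e : 10 * J = 10 * J + 0 := rfl
    rw [e, rd_cell _ _ _ _ _ _ hw' (by omega)] at this
    rw [show 10 * 0 + w = w by omega, t4] at this
    exact Bool.noConfusion this
  have q5 : uv (10 * I + w) (10 * J + 2) = false := by
    by_contra hc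
    rw [Bool.not_eq_false] at hc
    have := G.alwV _ _ hc
    rw [rd_cell _ _ _ _ _ _ hw' (by omega), t5] at this
    exact Bool.noConfusion this
  have d1 := G.deg _ _ q1
  have d2 := G.deg _ _ q2
  unfold degU at d1 d2
  have e1 : 10 * J + 1 - 1 = 10 * J := by omega
  have e2 : 10 * J + 2 - 1 = 10 * J + 1 := by omega
  have e3 : 10 * I + w - 1 = 10 * I + (w - 1) := by omega
  rw [if_neg (by omega), if_neg (by omega), e1, e3, q3, q4] at d1
  rw [if_neg (by omega), if_neg (by omega), e2, e3, q3, q5] at d2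
  refine ⟨q1, q2, q3, ?_, ?_⟩
  · cases h : uh (10 * I + w) (10 * J + 1) <;>
      cases h' : uh (10 * I + (w - 1)) (10 * J + 1) <;> simp [h, h'] at d1 ⊢
  · cases h : uh (10 * I + w) (10 * J + 2) <;>
      cases h' : uh (10 * I + (w - 1)) (10 * J + 2) <;> simp [h, h'] at d2 ⊢

theorem d3 : specD3 := by
  intro N uh uv G I J
  constructor
  · intro hT
    obtain ⟨a6, b6, c6, s6, r6⟩ := top_step G hT 6 (by omega) (by omega)
    obtain ⟨a7, b7, c7, s7, r7⟩ := top_step G hT 7 (by omega) (by omega)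
    obtain ⟨a8, b8, c8, s8, r8⟩ := top_step G hT 8 (by omega) (by omega)
    obtain ⟨a9, b9, c9, s9, r9⟩ := top_step G hT 9 (by omega) (by omega)
    simp only [show 6 - 1 = 5 from rfl, show 7 - 1 = 6 from rfl, show 8 - 1 = 7 from rfl,
      show 9 - 1 = 8 from rfl] at s6 r6 s7 r7 s8 r8 s9 r9
    refine ⟨?_, ?_, ?_⟩
    · rw [s9, r9, s8, r8, s7, r7]
      by_contra hc
      have hc' : uv (10 * I + 1) (10 * J + 6) = uv (10 * I + 2) (10 * J + 6) := by
        cases h : uv (10 * I + 1) (10 * J + 6) <;>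
          cases h' : uv (10 * I + 2) (10 * J + 6) <;> simp [h, h'] at hc ⊢
      cases h : uv (10 * I + 1) (10 * J + 6)
      · have h' : uv (10 * I + 2) (10 * J + 6) = false := by rw [← hc', h]
        rw [h] at s7
        rw [h'] at r7
        exact no_square G (10 * I + 1) (10 * J + 7) a7 b7 a8 b8 c7 c8 s7 r7 (z := (_, _)) a6
          (by simp)
      · have h' : uv (10 * I + 2) (10 * J + 6) = true := by rw [← hc', h]
        exact no_square G (10 * I + 1) (10 * J + 6) a6 b6 a7 b7 c6 c7 h h' (z := (_, _)) a9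
          (by simp)
    · rw [s9, s8, s7, s6, Bool.not_not, Bool.not_not]
    · rw [r9, r8, r7, r6, Bool.not_not, Bool.not_not]
  · intro hR
    obtain ⟨a6, b6, c6, s6, r6⟩ := right_step G hR 6 (by omega) (by omega)
    obtain ⟨a7, b7, c7, s7, r7⟩ := right_step G hR 7 (by omega) (by omega)
    obtain ⟨a8, b8, c8, s8, r8⟩ := right_step G hR 8 (by omega) (by omega)
    obtain ⟨a9, b9, c9, s9, r9⟩ := right_step G hR 9 (by omega) (by omega)
    simp only [show 6 - 1 = 5 from rfl, show 7 - 1 = 6 from rfl, show 8 - 1 = 7 from rfl,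
      show 9 - 1 = 8 from rfl] at s6 r6 s7 r7 s8 r8 s9 r9
    refine ⟨?_, ?_, ?_⟩
    · rw [s9, r9, s8, r8, s7, r7]
      by_contra hc
      have hc' : uh (10 * I + 6) (10 * J + 1) = uh (10 * I + 6) (10 * J + 2) := by
        cases h : uh (10 * I + 6) (10 * J + 1) <;>
          cases h' : uh (10 * I + 6) (10 * J + 2) <;> simp [h, h'] at hc ⊢
      cases h : uh (10 * I + 6) (10 * J + 1)
      · have h' : uh (10 * I + 6) (10 * J + 2) = false := by rw [← hc', h]
        rw [h] at s7
        rw [h'] at r7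
        exact no_square G (10 * I + 7) (10 * J + 1) a7 a8 b7 b8 s7 r7 c7 c8 (z := (_, _)) a6
          (by simp)
      · have h' : uh (10 * I + 6) (10 * J + 2) = true := by rw [← hc', h]
        exact no_square G (10 * I + 6) (10 * J + 1) a6 a7 b6 b7 h h' c6 c7 (z := (_, _)) a9
          (by simp)
    · rw [s9, s8, s7, s6, Bool.not_not, Bool.not_not]
    · rw [r9, r8, r7, r6, Bool.not_not, Bool.not_not]

end Pool.Agent.Helper9.ELP
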