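import Pool.Agent.Helper38.ELP.Spec

namespace Pool.Agent.Helper9.ELP

open SimpleGraph

theorem d7 : Pool.Agent.Helper38.ELP.specD7 := by
  classical
  intro V _ G n hn hconn hdeg
  obtain ⟨v⟩ := hconn.nonempty
  have hcyc : G.IsCycles := fun w _ => hdeg w
  have hne : (G.neighborSet v).Nonempty := by
    rw [← Set.ncard_pos (Set.toFinite _), hdeg v]
    norm_num
  obtain ⟨p, hp, hv⟩ := hcyc.exists_cycle_toSubgraph_verts_eq_connectedComponentSupp
    (c := G.connectedComponentMk v) (v := v) rfl hne
  have hall : ∀ w : V, w ∈ p.support := by
    intro w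
    have h1 : w ∈ p.toSubgraph.verts := by
      rw [hv]
      exact ConnectedComponent.sound (hconn.preconnected w v)
    exact p.mem_verts_toSubgraph.mp h1
  have hlen : 3 ≤ p.length := hp.three_le_length
  have hinj : Set.InjOn p.getVert {i | i ≤ p.length - 1} := hp.getVert_injOn'
  let f : Fin p.length → V := fun i => p.getVert i
  have fi : Function.Injective f := by
    intro i j hij
    apply Fin.ext
    exact hinj (by have := i.2; simp only [Set.mem_ofPred_eq]; omega)
      (by have := j.2; simp only [Set.mem_ofPred_eq]; omega) hij
  have fs : Function.Surjective f := by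
    intro w
    obtain ⟨i, hi, hil⟩ := (Walk.mem_support_iff_exists_getVert).mp (hall w)
    rcases Nat.lt_or_ge i p.length with h | h
    · exact ⟨⟨i, h⟩, hi⟩
    · refine ⟨⟨0, by omega⟩, ?_⟩
      have : i = p.length := le_antisymm hil h
      subst this
      simp only [Walk.getVert_length] at hi
      simp [f, ← hi]
  have e : Fin p.length ≃ V := Equiv.ofBijective f ⟨fi, fs⟩
  have hL : p.length = n := by
    rw [← hn, ← Fintype.card_congr e, Fintype.card_fin]
  subst hL
  refine ⟨Equiv.ofBijective f ⟨fi, fs⟩, fun i => ?_⟩
  change G.Adj (p.getVert ((i : Fin p.length) : ℕ))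
    (p.getVert ((finRotate p.length i : Fin p.length) : ℕ))
  obtain ⟨m, hm⟩ : ∃ m, p.length = m + 1 := ⟨p.length - 1, by omega⟩
  by_cases h : (i : ℕ) + 1 < p.length
  · have : ((finRotate p.length i : Fin p.length) : ℕ) = i + 1 := by
      have := i.2
      revert i
      rw [hm]
      intro i h _
      exact coe_finRotate_of_ne_last (by
        intro h'
        rw [h'] at h
        simp at h)
    rw [this]
    exact p.adj_getVert_succ (by omega)
  · have h2 : (i : ℕ) + 1 = p.length := by have := i.2; omega
    have : ((finRotate p.length i : Fin p.length) : ℕ) = 0 := by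
      revert i
      rw [hm]
      intro i h _
      have : i = Fin.last m := by
        apply Fin.ext
        have := i.2
        simp only [Fin.val_last]
        omega
      rw [this]
      simp
    rw [this]
    have h3 := p.adj_getVert_succ (i := i) (by omega)
    rw [h2, Walk.getVert_length] at h3
    simpa using h3

end Pool.Agent.Helper9.ELP
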